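import Pool.Agent.H74R2.WT.Stmts

set_option autoImplicit false

/-! Task L of project WT (helper74), by helper553: wallpaper groups with elements of order 4, 3. -/

open MeasureTheory Set

namespace H74R2.WT

noncomputable section

namespace TaskL

/-- the lattice `Z + Z w` -/
def Lat (w : ℂ) : AddSubgroup ℂ where
  carrier := {z | ∃ m n : ℤ, z = m + n * w}
  zero_mem' := ⟨0, 0, by simp⟩
  add_mem' := by
    rintro a b ⟨m, n, rfl⟩ ⟨m', n', rfl⟩
    exact ⟨m + m', n + n', by push_cast; ring⟩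
  neg_mem' := by
    rintro a ⟨m, n, rfl⟩
    exact ⟨-m, -n, by push_cast; ring⟩

/-- the group -/
def Gp (w : ℂ) (N : ℕ) : Subgroup (ℂ ≃ᵢ ℂ) where
  carrier := {g | ∃ v : ℂ, v ^ N = 1 ∧ v ≠ 0 ∧ (∀ l ∈ Lat w, v * l ∈ Lat w) ∧
    (∀ l ∈ Lat w, v⁻¹ * l ∈ Lat w) ∧ ∃ l ∈ Lat w, ∀ z, g z = v * z + l}
  one_mem' := by
    refine ⟨1, one_pow _, one_ne_zero, fun l hl => by rwa [one_mul],
      fun l hl => by rwa [inv_one, one_mul], 0, (Lat w).zero_mem, fun z => ?_⟩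
    rw [one_mul, add_zero]
    rfl
  mul_mem' := by
    rintro g h ⟨v, h1, h2, h3, h4, l, hl, hg⟩ ⟨v', h1', h2', h3', h4', l', hl', hh⟩
    refine ⟨v * v', by rw [mul_pow, h1, h1', one_mul], mul_ne_zero h2 h2', fun x hx => ?_,
      fun x hx => ?_, v * l' + l, (Lat w).add_mem (h3 _ hl') hl, fun z => ?_⟩
    · rw [mul_assoc]
      exact h3 _ (h3' _ hx)
    · rw [mul_inv_rev, mul_assoc]
      exact h4' _ (h4 _ hx)
    · show g (h z) = _
      rw [hg, hh]
      ring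
  inv_mem' := by
    rintro g ⟨v, h1, h2, h3, h4, l, hl, hg⟩
    refine ⟨v⁻¹, by rw [inv_pow, h1, inv_one], inv_ne_zero h2, h4, by simpa using h3,
      -(v⁻¹ * l), (Lat w).neg_mem (h4 _ hl), fun z => ?_⟩
    apply g.injective
    have e1 : g (g⁻¹ z) = z := g.apply_symm_apply z
    rw [e1, hg]
    field_simp
    ring

variable {w : ℂ} {t : ℤ}

theorem sq_eq (h1 : w.re = t / 2) (h2 : w.re ^ 2 + w.im ^ 2 = 1) : w * w = t * w - 1 := by
  have ht : (t : ℝ) = 2 * w.re := by rw [h1]; ring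
  apply Complex.ext
  · simp only [Complex.mul_re, Complex.sub_re, Complex.intCast_re, Complex.intCast_im,
      Complex.one_re, zero_mul, sub_zero]
    rw [ht]
    nlinarith
  · simp only [Complex.mul_im, Complex.sub_im, Complex.intCast_re, Complex.intCast_im,
      Complex.one_im, zero_mul, sub_zero, add_zero]
    rw [ht]
    ring

theorem norm_w (h2 : w.re ^ 2 + w.im ^ 2 = 1) : ‖w‖ = 1 := by
  have h : ‖w‖ ^ 2 = 1 := by
    rw [← Complex.normSq_eq_norm_sq, Complex.normSq_apply]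
    nlinarith
  nlinarith [norm_nonneg w, sq_nonneg (‖w‖ - 1)]

theorem w_ne (h2 : w.re ^ 2 + w.im ^ 2 = 1) : w ≠ 0 := by
  rw [← norm_ne_zero_iff, norm_w h2]
  exact one_ne_zero

theorem mul_mem (h1 : w.re = t / 2) (h2 : w.re ^ 2 + w.im ^ 2 = 1) :
    ∀ l ∈ Lat w, w * l ∈ Lat w := by
  rintro l ⟨m, n, rfl⟩
  refine ⟨-n, m + t * n, ?_⟩
  have := sq_eq h1 h2
  push_cast
  linear_combination (n : ℂ) * this

theorem inv_mem (h1 : w.re = t / 2) (h2 : w.re ^ 2 + w.im ^ 2 = 1) :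
    ∀ l ∈ Lat w, w⁻¹ * l ∈ Lat w := by
  intro l hl
  have h := sq_eq h1 h2
  have e : w⁻¹ = t - w := by
    rw [inv_eq_iff_eq_inv, eq_comm]
    apply inv_eq_of_mul_eq_one_left
    linear_combination -h
  rw [e, sub_mul]
  refine (Lat w).sub_mem ?_ (mul_mem h1 h2 l hl)
  obtain ⟨m, n, rfl⟩ := hl
  exact ⟨t * m, t * n, by push_cast; ring⟩

/-- the lattice is discrete -/
theorem disc (h1 : w.re = t / 2) (h2 : w.re ^ 2 + w.im ^ 2 = 1) (h3 : 0 < w.im) :
    ∀ l ∈ Lat w, l ≠ 0 → 1 ≤ ‖l‖ := by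
  rintro l ⟨m, n, rfl⟩ hl
  have e1 : ‖(m : ℂ) + n * w‖ ^ 2 = ((m ^ 2 + t * m * n + n ^ 2 : ℤ) : ℝ) := by
    rw [← Complex.normSq_eq_norm_sq, Complex.normSq_apply]
    have ht : (t : ℝ) = 2 * w.re := by rw [h1]; ring
    simp only [Complex.add_re, Complex.mul_re, Complex.add_im, Complex.mul_im, Complex.intCast_re,
      Complex.intCast_im, zero_mul, sub_zero, add_zero, zero_add]
    push_cast
    rw [ht]
    linear_combination (n : ℝ) ^ 2 * h2
  have e2 : 0 < ‖(m : ℂ) + n * w‖ := norm_pos_iff.2 hl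
  have e3 : (0 : ℝ) < ((m ^ 2 + t * m * n + n ^ 2 : ℤ) : ℝ) := by
    rw [← e1]
    positivity
  have e4 : (1 : ℝ) ≤ ((m ^ 2 + t * m * n + n ^ 2 : ℤ) : ℝ) := by
    have : 0 < m ^ 2 + t * m * n + n ^ 2 := by exact_mod_cast e3
    exact_mod_cast this
  rw [← e1] at e4
  nlinarith

/-- the lattice is relatively dense -/
theorem dens (h2 : w.re ^ 2 + w.im ^ 2 = 1) (h3 : 0 < w.im) (z : ℂ) :
    ∃ l ∈ Lat w, ‖z - l‖ ≤ 1 := by
  obtain ⟨y, hy⟩ : ∃ y : ℝ, y = z.im / w.im := ⟨_, rfl⟩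
  obtain ⟨x, hx⟩ : ∃ x : ℝ, x = z.re - y * w.re := ⟨_, rfl⟩
  have hz : z = x + y * w := by
    apply Complex.ext
    · simp [hx]
    · simp [hy, h3.ne']
  refine ⟨(round x : ℂ) + (round y : ℂ) * w, ⟨round x, round y, rfl⟩, ?_⟩
  have e : z - ((round x : ℂ) + (round y : ℂ) * w) =
      ((x - round x : ℝ) : ℂ) + ((y - round y : ℝ) : ℂ) * w := by
    rw [hz]
    push_cast
    ring
  rw [e]
  have a1 := abs_sub_round x
  have a2 := abs_sub_round y
  calc _ ≤ ‖((x - round x : ℝ) : ℂ)‖ + ‖((y - round y : ℝ) : ℂ) * w‖ := norm_add_le _ _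
    _ = |x - round x| + |y - round y| := by
        rw [norm_mul, norm_w h2, mul_one, Complex.norm_real, Complex.norm_real, Real.norm_eq_abs,
          Real.norm_eq_abs]
    _ ≤ 1 := by linarith

/-- one coset -/
theorem coset (h1 : w.re = t / 2) (h2 : w.re ^ 2 + w.im ^ 2 = 1) (h3 : 0 < w.im) (c : ℂ) :
    ∃ δ > 0, ∀ l ∈ Lat w, c + l ≠ 0 → δ ≤ ‖c + l‖ := by
  by_cases h : ∃ l ∈ Lat w, c + l ≠ 0 ∧ ‖c + l‖ < 1 / 2
  · obtain ⟨l0, hl0, hne, hlt⟩ := h
    refine ⟨‖c + l0‖, norm_pos_iff.2 hne, fun l hl hl' => ?_⟩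
    by_contra hcon
    push Not at hcon
    have h4 : l - l0 = 0 := by
      by_contra h5
      have h6 := disc h1 h2 h3 _ ((Lat w).sub_mem hl hl0) h5
      have h7 : ‖l - l0‖ ≤ ‖c + l‖ + ‖c + l0‖ := by
        have : l - l0 = (c + l) - (c + l0) := by ring
        rw [this]
        exact norm_sub_le _ _
      linarith
    have h8 : l = l0 := sub_eq_zero.1 h4
    rw [h8] at hcon
    exact lt_irrefl _ hcon
  · push Not at h
    exact ⟨1 / 2, by norm_num, fun l hl hl' => h l hl hl'⟩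

/-- finitely many cosets -/
theorem fin_coset {S : Set ℂ} (hS : S.Finite) (f : ℂ → Set ℝ)
    (h : ∀ v ∈ S, ∃ δ > 0, ∀ x ∈ f v, δ ≤ x) : ∃ δ > 0, ∀ v ∈ S, ∀ x ∈ f v, δ ≤ x := by
  induction S, hS using Set.Finite.induction_on with
  | empty => exact ⟨1, one_pos, fun v hv => absurd hv (Set.notMem_empty v)⟩
  | @insert a s ha hs ih =>
    obtain ⟨δ1, h1, h2⟩ := ih (fun v hv => h v (Set.mem_insert_of_mem _ hv))
    obtain ⟨δ2, h3, h4⟩ := h a (Set.mem_insert _ _)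
    refine ⟨min δ1 δ2, lt_min h1 h3, fun v hv x hx => ?_⟩
    rcases Set.mem_insert_iff.1 hv with h5 | h5
    · rw [h5] at hx
      exact (min_le_right _ _).trans (h4 x hx)
    · exact (min_le_left _ _).trans (h2 v h5 x hx)

theorem wallpaper (h1 : w.re = t / 2) (h2 : w.re ^ 2 + w.im ^ 2 = 1) (h3 : 0 < w.im) {N : ℕ}
    (hN : 0 < N) : IsWallpaper (Gp w N) := by
  constructor
  · refine ⟨Metric.closedBall 0 1, Metric.isBounded_closedBall, fun z => ?_⟩
    obtain ⟨l, hl, hd⟩ := dens h2 h3 z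
    refine ⟨tr l, ?_, z - l, by simpa using hd, ?_⟩
    · refine ⟨1, one_pow _, one_ne_zero, fun x hx => by rwa [one_mul],
        fun x hx => by rwa [inv_one, one_mul], l, hl, fun z => ?_⟩
      rw [one_mul]
      rfl
    · show z - l + l = z
      ring
  · intro p
    have hfin : {v : ℂ | v ^ N = 1}.Finite := by
      have h := (Polynomial.nthRoots N (1 : ℂ)).toFinset.finite_toSet
      refine h.subset (fun v hv => ?_)
      simp only [Finset.mem_coe, Multiset.mem_toFinset]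
      exact (Polynomial.mem_nthRoots hN).2 hv
    obtain ⟨δ, hδ, hδ'⟩ := fin_coset hfin
      (fun v => {x | ∃ l ∈ Lat w, (v * p - p) + l ≠ 0 ∧ x = ‖(v * p - p) + l‖}) (by
        intro v _
        obtain ⟨δ, hδ, h⟩ := coset h1 h2 h3 (v * p - p)
        refine ⟨δ, hδ, ?_⟩
        rintro x ⟨l, hl, hne, rfl⟩
        exact h l hl hne)
    refine ⟨δ, hδ, ?_⟩
    rintro g ⟨v, hv, _, _, _, l, hl, hg⟩ hne
    refine hδ' v hv _ ⟨l, hl, ?_, ?_⟩
    · intro h0
      apply hne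
      rw [hg]
      linear_combination h0
    · rw [dist_comm, dist_eq_norm, hg]
      congr 1
      ring

/-- the rotation -/
theorem rot (h1 : w.re = t / 2) (h2 : w.re ^ 2 + w.im ^ 2 = 1) {N : ℕ} (hw : w ^ N = 1) :
    ∃ g ∈ Gp w N, ∀ (k : ℕ) (z : ℂ), (g ^ k) z = w ^ k * z := by
  obtain ⟨g, hg⟩ : ∃ g : ℂ ≃ᵢ ℂ, ∀ z, g z = w * z := by
    refine ⟨(rotation ⟨w, mem_sphere_zero_iff_norm.2 (norm_w h2)⟩).toIsometryEquiv, fun z => ?_⟩
    rfl
  refine ⟨g, ⟨w, hw, w_ne h2, mul_mem h1 h2, inv_mem h1 h2, 0, (Lat w).zero_mem,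
    fun z => by rw [hg, add_zero]⟩, fun k => ?_⟩
  induction k with
  | zero => intro z; rw [pow_zero, pow_zero, one_mul]; rfl
  | succ k ih =>
    intro z
    rw [pow_succ]
    show (g ^ k) (g z) = _
    rw [ih, hg]
    ring

theorem pow_eq_one_iff' {g : ℂ ≃ᵢ ℂ} {k : ℕ} (hg : ∀ z, (g ^ k) z = w ^ k * z) :
    g ^ k = 1 ↔ w ^ k = 1 := by
  constructor
  · intro h
    have := hg 1
    rw [h, mul_one] at this
    exact this.symm
  · intro h
    apply IsometryEquiv.ext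
    intro z
    rw [hg, h, one_mul]
    rfl

end TaskL

open TaskL in
theorem t_L : T_L := by
  constructor
  · have h1 : (Complex.I).re = ((0 : ℤ) : ℝ) / 2 := by simp
    have h2 : (Complex.I).re ^ 2 + (Complex.I).im ^ 2 = 1 := by simp
    have h3 : 0 < (Complex.I).im := by simp
    have hw : (Complex.I) ^ 4 = 1 := Complex.I_pow_four
    obtain ⟨g, hg, hgz⟩ := rot h1 h2 hw
    refine ⟨Gp Complex.I 4, wallpaper h1 h2 h3 (by norm_num), g, hg, ?_⟩
    have e1 : ¬ g ^ 2 ^ 1 = 1 := by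
      rw [pow_one, pow_eq_one_iff' (hgz 2), Complex.I_sq]
      norm_num
    have e2 : g ^ 2 ^ (1 + 1) = 1 := by
      rw [show 2 ^ (1 + 1) = 4 by norm_num, pow_eq_one_iff' (hgz 4)]
      exact hw
    have := orderOf_eq_prime_pow e1 e2
    norm_num at this
    exact this
  · have hs : Real.sqrt 3 ^ 2 = 3 := Real.sq_sqrt (by norm_num)
    obtain ⟨w, hw⟩ : ∃ w : ℂ, w = ⟨-1 / 2, Real.sqrt 3 / 2⟩ := ⟨_, rfl⟩
    have h1 : w.re = ((-1 : ℤ) : ℝ) / 2 := by rw [hw]; simp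
    have h2 : w.re ^ 2 + w.im ^ 2 = 1 := by
      rw [hw]
      simp only
      rw [div_pow, div_pow, hs]
      norm_num
    have h3 : 0 < w.im := by
      rw [hw]
      simp only
      positivity
    have hsq := sq_eq h1 h2
    have hw3 : w ^ 3 = 1 := by
      push_cast at hsq
      linear_combination (w - 1) * hsq
    obtain ⟨g, hg, hgz⟩ := rot h1 h2 hw3
    refine ⟨Gp w 3, wallpaper h1 h2 h3 (by norm_num), g, hg, ?_⟩
    haveI : Fact (Nat.Prime 3) := ⟨Nat.prime_three⟩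
    apply orderOf_eq_prime
    · rw [pow_eq_one_iff' (hgz 3)]
      exact hw3
    · intro h
      have e := (pow_eq_one_iff' (hgz 1)).1 (by rw [pow_one]; exact h)
      rw [pow_one] at e
      rw [e] at h3
      simp at h3

end

end H74R2.WT
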